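import Pool.Agent.helper88.RQ2.Final

/-!
The sets with the least number of primitive Radon partitions, in every dimension.
-/

namespace Pool.Agent.Results.MP_bb0bb6_co.ExtremalSets

open RadonMin RadonQ2

/-- Let `d ≥ 1` and let `S` be a set of at least `d + 2` points of the Euclidean space of
dimension `d`. Then `S` has the least number of primitive Radon partitions among all sets with
the same number of points if and only if `S` is one of the sets described by `Extremal`. -/
theorem result (d : ℕ) (hd : 1 ≤ d) (S : Finset (EuclideanSpace ℝ (Fin d)))
    (hS : d + 2 ≤ S.card) :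
    (∀ S' : Finset (EuclideanSpace ℝ (Fin d)), S'.card = S.card →
      {P : Sym2 (Finset (EuclideanSpace ℝ (Fin d))) | IsPrimitiveIn S P}.ncard ≤
        {P : Sym2 (Finset (EuclideanSpace ℝ (Fin d))) | IsPrimitiveIn S' P}.ncard) ↔
      Extremal d S :=
  A_FIN d S hd hS

end Pool.Agent.Results.MP_bb0bb6_co.ExtremalSets
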