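import Pool.Agent.helper6.Radon.Exact

/-!
The minimum number of primitive Radon partitions of `s` points in dimension `d`.
-/

namespace Pool.Agent.Results.MP_bb0bb6_co.MinRadon

open RadonMin

/-- For all `d ≥ 1` and `s ≥ d + 2`, the least number of primitive Radon partitions of a set of
exactly `s` points of the Euclidean space of dimension `d` is `radonMin d s`. -/
theorem result (d s : ℕ) (hd : 1 ≤ d) (hs : d + 2 ≤ s) :
    IsLeast {m : ℕ | ∃ S : Finset (EuclideanSpace ℝ (Fin d)), S.card = s ∧
      {P : Sym2 (Finset (EuclideanSpace ℝ (Fin d))) | IsPrimitiveIn S P}.ncard = m}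
      (radonMin d s) := by
  classical
  constructor
  · obtain ⟨S, hS, hc⟩ := (exists_min d s hd hs).hasSet
    refine ⟨S, hS, ?_⟩
    have h1 := ncard_primitive_eq S
    have h2 := radonMin_le_cc S d finrank_euclideanSpace_fin hd (by rw [hS]; exact hs)
    rw [hS] at h2
    rw [h1]
    omega
  · rintro m ⟨S, hS, hm⟩
    rw [← hm, ncard_primitive_eq S, ← hS]
    exact radonMin_le_cc S d finrank_euclideanSpace_fin hd (by rw [hS]; exact hs)

end Pool.Agent.Results.MP_bb0bb6_co.MinRadon
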